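import Pool.Agent.Helper50.Drop.RotDefs

/-!
# Sign conditions on the small box (piece BOX of MP_51c806_gt)
-/

set_option autoImplicit false

namespace Pool.Agent.Helper50.Drop

open Finset MeasureTheory
open scoped RealInnerProductSpace
open Pool.Agent.Helper76.Freq (Q ins tr gr ev cobd cup Pr Adm gp Dep Nrm R3 E6 ver pt qf IsTop IsBot
  H4 exists_isTop exists_isBot)

namespace Box96

theorem inner3 (a b : R3) : ⟪a, b⟫ = a 0 * b 0 + a 1 * b 1 + a 2 * b 2 := by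
  rw [PiLp.inner_apply]
  simp [Fin.sum_univ_three, mul_comm]

theorem crs_smul (r : ℝ) (a b : R3) : crs (r • a) b = r • crs a b := by
  ext i
  fin_cases i <;> simp [crs] <;> ring

theorem inner_rot (V a u : R3) (α : ℝ) (hV : ‖V‖ ≠ 0) :
    ‖V‖ ^ 2 * ⟪Rot (‖V‖⁻¹ • V) α a, u⟫ =
      Real.cos α * ‖V‖ ^ 2 * ⟪a, u⟫ + (1 - Real.cos α) * ⟪V, a⟫ * ⟪V, u⟫
        + Real.sin α * ‖V‖ * ⟪crs V a, u⟫ := by
  unfold Rot
  rw [inner_add_left, inner_add_left, real_inner_smul_left, real_inner_smul_left,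
    real_inner_smul_left, real_inner_smul_left, real_inner_smul_left, crs_smul,
    real_inner_smul_left]
  field_simp

theorem normsq_VB (x y : ℝ) : ‖VB x y‖ ^ 2 =
    3 + 6 * ((1 / 2 - x) / 50) ^ 2 + 2 * ((y - 1 / 2) / 5) ^ 2 := by
  rw [← real_inner_self_eq_norm_sq, inner3]
  simp [VB]
  ring

theorem formA (x y α : ℝ) (hV : ‖VB x y‖ ≠ 0) :
    ‖VB x y‖ ^ 2 * ⟪Rot (vB x y) α e1, uA⟫ =
      6 * (1 + Real.cos α) + 18 * ((1 / 2 - x) / 50) * (1 - Real.cos α)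
        + 12 * ((1 / 2 - x) / 50) ^ 2 * (1 + Real.cos α)
        + 8 * ((y - 1 / 2) / 5) ^ 2 * Real.cos α
        + 2 * ((y - 1 / 2) / 5) * Real.sin α * ‖VB x y‖ := by
  unfold vB
  rw [inner_rot _ _ _ _ hV, normsq_VB]
  simp only [inner3]
  simp [VB, e1, uA, crs]
  ring

theorem formB (x y α : ℝ) (hV : ‖VB x y‖ ≠ 0) :
    ‖VB x y‖ ^ 2 * ⟪Rot (vB x y) α e3, uB⟫ =
      6 * (1 + Real.cos α) + 9 * ((y - 1 / 2) / 5 - (1 / 2 - x) / 50) * (1 - Real.cos α)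
        + 3 * ((y - 1 / 2) / 5 - (1 / 2 - x) / 50) ^ 2 * (1 - Real.cos α)
        + (24 * ((1 / 2 - x) / 50) ^ 2 + 8 * ((y - 1 / 2) / 5) ^ 2) * Real.cos α
        - Real.sin α * ‖VB x y‖ * (3 * ((1 / 2 - x) / 50) + (y - 1 / 2) / 5) := by
  unfold vB
  rw [inner_rot _ _ _ _ hV, normsq_VB]
  simp only [inner3]
  simp [VB, e3, uB, crs]
  ring

theorem formC (x y α : ℝ) (hV : ‖VB x y‖ ≠ 0) :
    ‖VB x y‖ ^ 2 * ⟪Rot (vB x y) α e3, uC⟫ =
      (1 - Real.cos α) * (1 + ((y - 1 / 2) / 5 - (1 / 2 - x) / 50)) *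
        (3 * ((1 / 2 - x) / 50) + (y - 1 / 2) / 5)
        + Real.sin α * ‖VB x y‖ * (2 + (1 / 2 - x) / 50 - (y - 1 / 2) / 5) := by
  unfold vB
  rw [inner_rot _ _ _ _ hV, normsq_VB]
  simp only [inner3]
  simp [VB, e3, uC, crs]
  ring

theorem cos_bd {t : ℝ} (ht : t ∈ Set.Icc (15 / 32 : ℝ) (17 / 32)) :
    Real.cos (2 * Real.pi * t) ≤ -0.98 := by
  have h1 : Real.cos (2 * Real.pi * t) = - Real.cos (2 * Real.pi * (t - 1 / 2)) := by
    rw [show 2 * Real.pi * (t - 1 / 2) = 2 * Real.pi * t - Real.pi by ring, Real.cos_sub_pi]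
    ring
  have h2 := Real.one_sub_sq_div_two_le_cos (x := 2 * Real.pi * (t - 1 / 2))
  have h3 : (2 * Real.pi * (t - 1 / 2)) ^ 2 ≤ 0.04 := by
    have hpi := Real.pi_lt_d2
    have hpi0 := Real.pi_pos
    have h4 : |2 * Real.pi * (t - 1 / 2)| ≤ 0.2 := by
      rw [abs_mul, abs_of_pos (by positivity)]
      have h5 : |t - 1 / 2| ≤ 1 / 32 := by
        rw [abs_le]; constructor <;> linarith [ht.1, ht.2]
      nlinarith [abs_nonneg (t - 1 / 2)]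
    rw [← sq_abs]
    nlinarith [abs_nonneg (2 * Real.pi * (t - 1 / 2))]
  rw [h1]
  linarith

theorem sin_bd {t : ℝ} (ht : t ∈ Set.Icc (15 / 32 : ℝ) (17 / 32)) :
    |Real.sin (2 * Real.pi * t)| ≤ 0.2 := by
  have h1 := cos_bd ht
  have h2 := Real.sin_sq_add_cos_sq (2 * Real.pi * t)
  rw [← abs_of_nonneg (by norm_num : (0 : ℝ) ≤ 0.2)]
  rw [← sq_le_sq]
  nlinarith

theorem sin_pi16 : 0.19 ≤ Real.sin (Real.pi / 16) := by
  have h1 := Real.pi_gt_d2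
  have h2 := Real.pi_lt_d2
  have h3 := Real.sin_gt_sub_cube (x := Real.pi / 16) (by positivity)
  have h4 : (Real.pi / 16) ^ 3 ≤ 0.008 := by
    have : Real.pi / 16 ≤ 0.2 := by linarith
    calc (Real.pi / 16) ^ 3 ≤ 0.2 ^ 3 := by gcongr
      _ = 0.008 := by norm_num
  linarith

theorem sq_le2 {a : ℝ} (h1 : -0.01 ≤ a) (h2 : a ≤ 0.01) : a ^ 2 ≤ 0.0001 := by nlinarith

theorem sq_le3 {a : ℝ} (h1 : -0.1 ≤ a) (h2 : a ≤ 0.1) : a ^ 2 ≤ 0.01 := by nlinarith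

theorem mul_lo {a c : ℝ} {b : ℝ} (h0 : 0 ≤ a) (h1 : a ≤ b) (hc : -1 ≤ c) : -b ≤ a * c := by
  nlinarith

theorem sq_le' {a : ℝ} (h1 : -0.11 ≤ a) (h2 : a ≤ 0.11) : a ^ 2 ≤ 0.0121 := by nlinarith

theorem neg_of {a b : ℝ} (ha : 0 < a) (h : a * b < 0) : b < 0 := by
  by_contra hb
  push Not at hb
  exact absurd h (not_lt.2 (mul_nonneg ha.le hb))

end Box96

open Box96 in
theorem box_signs {x y t : ℝ} (hx : x ∈ Set.Icc (0 : ℝ) 1) (hy : y ∈ Set.Icc (0 : ℝ) 1)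
    (ht : t ∈ Set.Icc (15 / 32 : ℝ) (17 / 32)) :
    (x = 0 → 0 < ⟪Rot (vB x y) (2 * Real.pi * t) e1, uA⟫) ∧
    (x = 1 → ⟪Rot (vB x y) (2 * Real.pi * t) e1, uA⟫ < 0) ∧
    (y = 0 → ⟪Rot (vB x y) (2 * Real.pi * t) e3, uB⟫ < 0) ∧
    (y = 1 → 0 < ⟪Rot (vB x y) (2 * Real.pi * t) e3, uB⟫) ∧
    (t = 15 / 32 → 0 < ⟪Rot (vB x y) (2 * Real.pi * t) e3, uC⟫) ∧
    (t = 17 / 32 → ⟪Rot (vB x y) (2 * Real.pi * t) e3, uC⟫ < 0) := by
  have hN2 := normsq_VB x y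
  have hc1 := cos_bd ht
  have hc2 := Real.neg_one_le_cos (2 * Real.pi * t)
  have hs := sin_bd ht
  have hA := formA x y (2 * Real.pi * t)
  have hB := formB x y (2 * Real.pi * t)
  have hC := formC x y (2 * Real.pi * t)
  obtain ⟨p, hp⟩ : ∃ p, p = (1 / 2 - x) / 50 := ⟨_, rfl⟩
  obtain ⟨q, hq⟩ : ∃ q, q = (y - 1 / 2) / 5 := ⟨_, rfl⟩
  have hp1 : -0.01 ≤ p := by rw [hp]; linarith [hx.2]
  have hp2 : p ≤ 0.01 := by rw [hp]; linarith [hx.1]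
  have hq1 : -0.1 ≤ q := by rw [hq]; linarith [hy.1]
  have hq2 : q ≤ 0.1 := by rw [hq]; linarith [hy.2]
  rw [← hp, ← hq] at hN2 hA hB hC
  have hN0 : 0 ≤ ‖VB x y‖ := norm_nonneg _
  have hpp : p ^ 2 ≤ 0.0001 := sq_le2 hp1 hp2
  have hqq : q ^ 2 ≤ 0.01 := sq_le3 hq1 hq2
  have hp0 : 0 ≤ p ^ 2 := sq_nonneg p
  have hq0 : 0 ≤ q ^ 2 := sq_nonneg q
  have hNlo : 1.73 ≤ ‖VB x y‖ := abs_le_of_sq_le_sq' (a := 1.73) (b := ‖VB x y‖) (by
    rw [hN2]; norm_num; linarith) hN0 |>.2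
  have hNhi : ‖VB x y‖ ≤ 1.74 := abs_le_of_sq_le_sq' (a := ‖VB x y‖) (b := 1.74) (by
    rw [hN2]; norm_num; linarith) (by norm_num) |>.2
  have hne : ‖VB x y‖ ≠ 0 := by
    intro h0
    rw [h0] at hNlo
    norm_num at hNlo
  specialize hA hne
  specialize hB hne
  specialize hC hne
  have hNpos : 0 < ‖VB x y‖ ^ 2 := by positivity
  obtain ⟨N, hNdef⟩ : ∃ N, N = ‖VB x y‖ := ⟨_, rfl⟩
  rw [← hNdef] at hN2 hA hB hC hN0 hNlo hNhi hNpos
  obtain ⟨c, hcdef⟩ : ∃ c, c = Real.cos (2 * Real.pi * t) := ⟨_, rfl⟩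
  obtain ⟨s, hsdef⟩ : ∃ s, s = Real.sin (2 * Real.pi * t) := ⟨_, rfl⟩
  rw [← hcdef] at hA hB hC hc1 hc2
  rw [← hsdef] at hA hB hC hs
  have hsN : |s * N| ≤ 0.348 := by
    rw [abs_mul, abs_of_nonneg hN0]
    calc |s| * N ≤ 0.2 * 1.74 := by gcongr
      _ = 0.348 := by norm_num
  have hsN1 := (abs_le.1 hsN).1
  have hsN2 := (abs_le.1 hsN).2
  have habq : |q| ≤ 0.1 := abs_le.2 ⟨by linarith, hq2⟩
  have habp : |p| ≤ 0.01 := abs_le.2 ⟨by linarith, hp2⟩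
  have hqs : |q * (s * N)| ≤ 0.0348 := by
    rw [abs_mul]
    calc |q| * |s * N| ≤ 0.1 * 0.348 := by gcongr
      _ = 0.0348 := by norm_num
  have hpqs : |(3 * p + q) * (s * N)| ≤ 0.04524 := by
    rw [abs_mul]
    have h1 : |3 * p + q| ≤ 0.13 := abs_le.2 ⟨by linarith, by linarith⟩
    calc |3 * p + q| * |s * N| ≤ 0.13 * 0.348 := by gcongr
      _ = 0.04524 := by norm_num
  have hqs1 := (abs_le.1 hqs).1
  have hqs2 := (abs_le.1 hqs).2
  have hpqs1 := (abs_le.1 hpqs).1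
  have hpqs2 := (abs_le.1 hpqs).2
  have hc3 : 0 ≤ 1 + c := by linarith
  have hc4 : 1 + c ≤ 0.02 := by linarith
  have hc5 : 1.98 ≤ 1 - c := by linarith
  have hc6 : 1 - c ≤ 2 := by linarith
  have hpc : 0 ≤ p ^ 2 * (1 + c) := mul_nonneg hp0 hc3
  have hpc2 : p ^ 2 * (1 + c) ≤ 0.0001 * 0.02 := by gcongr
  have hqc : q ^ 2 * c ≤ 0 := mul_nonpos_of_nonneg_of_nonpos hq0 (by linarith)
  have hqc2 : -0.01 ≤ q ^ 2 * c := mul_lo hq0 hqq hc2
  have hpc3 : p ^ 2 * c ≤ 0 := mul_nonpos_of_nonneg_of_nonpos hp0 (by linarith)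
  have hpc4 : -0.0001 ≤ p ^ 2 * c := mul_lo hp0 hpp hc2
  have hC1 : |(1 - c) * (1 + (q - p)) * (3 * p + q)| ≤ 2 * 1.11 * 0.13 := by
    rw [abs_mul, abs_mul]
    have h1 : |1 - c| ≤ 2 := abs_le.2 ⟨by linarith, by linarith⟩
    have h2 : |1 + (q - p)| ≤ 1.11 := abs_le.2 ⟨by linarith, by linarith⟩
    have h3 : |3 * p + q| ≤ 0.13 := abs_le.2 ⟨by linarith, by linarith⟩
    gcongr
  have hC2 := (abs_le.1 hC1).1
  have hC3 := (abs_le.1 hC1).2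
  refine ⟨fun h => ?_, fun h => ?_, fun h => ?_, fun h => ?_, fun h => ?_, fun h => ?_⟩
  · have hpe : p = 0.01 := by rw [hp, h]; norm_num
    have : 0 < N ^ 2 * ⟪Rot (vB x y) (2 * Real.pi * t) e1, uA⟫ := by
      rw [hA, hpe]
      linarith
    exact (mul_pos_iff_of_pos_left hNpos).1 this
  · have hpe : p = -0.01 := by rw [hp, h]; norm_num
    have : N ^ 2 * ⟪Rot (vB x y) (2 * Real.pi * t) e1, uA⟫ < 0 := by
      rw [hA, hpe]
      linarith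
    exact neg_of hNpos this
  · have hqe : q = -0.1 := by rw [hq, h]; norm_num
    have : N ^ 2 * ⟪Rot (vB x y) (2 * Real.pi * t) e3, uB⟫ < 0 := by
      rw [hB]
      have hw1 : q - p ≤ -0.09 := by linarith
      have hw2 : (q - p) ^ 2 ≤ 0.0121 := sq_le' (by linarith) (by linarith)
      have hw3 : 0.09 * 1.98 ≤ (-(q - p)) * (1 - c) := mul_le_mul (by linarith) hc5 (by norm_num) (by linarith)
      have hw4 : (q - p) ^ 2 * (1 - c) ≤ 0.0121 * 2 := by gcongr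
      linarith
    exact neg_of hNpos this
  · have hqe : q = 0.1 := by rw [hq, h]; norm_num
    have : 0 < N ^ 2 * ⟪Rot (vB x y) (2 * Real.pi * t) e3, uB⟫ := by
      rw [hB]
      have hw1 : 0.09 ≤ q - p := by linarith
      have hw3 : 0.09 * 1.98 ≤ (q - p) * (1 - c) := by gcongr
      have hw4 : 0 ≤ (q - p) ^ 2 * (1 - c) := by positivity
      linarith
    exact (mul_pos_iff_of_pos_left hNpos).1 this
  · have hse : s = Real.sin (Real.pi / 16) := by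
      rw [hsdef, h, show 2 * Real.pi * (15 / 32) = Real.pi - Real.pi / 16 by ring, Real.sin_pi_sub]
    have hs0 := sin_pi16
    rw [← hse] at hs0
    have : 0 < N ^ 2 * ⟪Rot (vB x y) (2 * Real.pi * t) e3, uC⟫ := by
      rw [hC]
      have h1 : 0.19 * 1.73 ≤ s * N := by gcongr
      have h2 : 0.19 * 1.73 * 1.89 ≤ s * N * (2 + p - q) := by
        have : 1.89 ≤ 2 + p - q := by linarith
        gcongr
      linarith
    exact (mul_pos_iff_of_pos_left hNpos).1 this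
  · have hse : -s = Real.sin (Real.pi / 16) := by
      rw [hsdef, h, show 2 * Real.pi * (17 / 32) = Real.pi / 16 + Real.pi by ring, Real.sin_add_pi]
      ring
    have hs0 := sin_pi16
    rw [← hse] at hs0
    have : N ^ 2 * ⟪Rot (vB x y) (2 * Real.pi * t) e3, uC⟫ < 0 := by
      rw [hC]
      have h1 : 0.19 * 1.73 ≤ -s * N := by gcongr
      have h2 : 0.19 * 1.73 * 1.89 ≤ -s * N * (2 + p - q) := by
        have : 1.89 ≤ 2 + p - q := by linarith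
        gcongr
      linarith
    exact neg_of hNpos this

end Pool.Agent.Helper50.Drop
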